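import Mathlib
import Pool.Agent.X314.Clausen
import Pool.Agent.X314.Cartier

/-!
# MP_552068_nt, Q1: `p² ∣ ∑_{n<p} (-1)^n a(n)` for `(p/7) = -1`

* `(-16)^k ∑_{n<p} (-1)^n C(n,2k)² ≡ C(2k,k) (mod p²)` by creative telescoping, so that the sum is
  `∑_{k<p} C(2k,k)³` modulo `p²`.
* `(∑_{k<p} C(2k,k)² x^k)² ≡ ∑_{k<p} C(2k,k)³ (x(1-16x))^k (mod p²)`; here `x = λ/16` with
  `λ = -1-3θ`, `θ²+θ+2 = 0`, and `x(1-16x) = 1`.
* `∑_{k<p} C(2k,k)² x^k ≡ ∑ C(h,k)² λ^k = 0 (mod p)`: the Legendre curve with parameter `λ` has the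
  endomorphism `X ↦ (X+θ-1)²/(θ² X)` of degree two; the Cartier operator turns this into
  `(θ^p - θ) H(λ) = 0`, and `θ^p = -1-θ` as `-7` is not a square modulo `p`.
-/

set_option autoImplicit false
set_option linter.unusedSectionVars false

open Finset

namespace Pool.Agent.Results.MP_552068_nt.Vanishing

section supersingular

open Polynomial Pool.Agent.X314.Cartier

variable {R : Type*} [CommRing R] {p : ℕ} [hp : Fact p.Prime] [CharP R p]

lemma ss (h : ℕ) (hh : 2 * h + 1 = p) (θ : R) (hθ : θ ^ 2 + θ + 2 = 0) (u1 : IsUnit θ)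
    (u2 : IsUnit (θ ^ p - θ)) : H h (-1 - 3 * θ) = 0 := by
  have c2 : (C (2 : R) : R[X]) = 2 := map_ofNat C 2
  have c3 : (C (3 : R) : R[X]) = 3 := map_ofNat C 3
  obtain ⟨W, hW⟩ : ∃ W : R[X], W = C θ := ⟨_, rfl⟩
  have hW2 : W ^ 2 + W + 2 = 0 := by
    have : C (θ ^ 2 + θ + 2) = (0 : R[X]) := by rw [hθ, C_0]
    rw [hW]
    simpa [c2] using this
  obtain ⟨l, hl⟩ : ∃ l : R, l = -1 - 3 * θ := ⟨_, rfl⟩
  have hL : (C l : R[X]) = -1 - 3 * W := by
    rw [hl, hW]
    simp [c3]
  obtain ⟨N, hN⟩ : ∃ N : R[X], N = (C 1 * X + C (θ - 1)) * (C 1 * X + C (θ - 1)) := ⟨_, rfl⟩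
  obtain ⟨D, hD⟩ : ∃ D : R[X], D = C (θ ^ 2) * X + C 0 := ⟨_, rfl⟩
  have gN : Good p N := hN ▸ (good_lin 1 (θ - 1)).mul (good_lin 1 (θ - 1))
  have gD : Good p D := hD ▸ good_lin (θ ^ 2) 0
  have hN' : N = (X + W - 1) ^ 2 := by
    rw [hN, hW]
    simp only [map_one, map_sub]
    ring
  have hD' : D = W ^ 2 * X := by
    rw [hD, hW]
    simp only [map_pow, map_zero]
    ring
  have dW : derivative W = 0 := by rw [hW, derivative_C]
  have hdN : derivative N = 2 * (X + W - 1) := by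
    rw [hN', derivative_pow]
    simp [dW, c2]
  have hdD : derivative D = W ^ 2 := by
    rw [hD', derivative_mul, derivative_pow, dW]
    simp
  obtain ⟨f, hf⟩ : ∃ f : R[X], f = X * (X - 1) * (X - C l) := ⟨_, rfl⟩
  obtain ⟨g, hg⟩ : ∃ g : R[X], g = C θ * (X ^ 2 - C l) := ⟨_, rfl⟩
  have e1 : derivative N * D - N * derivative D = C θ * g := by
    rw [hdN, hdD, hN', hD', hg, hL, ← hW]
    linear_combination (-W ^ 2) * hW2
  have e2 : N * (N - D) * (N - C l * D) * D = f * g ^ 2 := by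
    have a1 : N - D = (X - 1) * (X - C l) := by
      rw [hN', hD', hL]
      linear_combination (1 - X) * hW2
    have a2 : N * (N - C l * D) = (X ^ 2 - C l) ^ 2 := by
      have a3 : N - C l * D = (X - W + 1) ^ 2 := by
        rw [hN', hD', hL]
        linear_combination ((3 * W - 2) * X) * hW2
      have a4 : (X + W - 1) * (X - W + 1) = X ^ 2 - C l := by
        rw [hL]
        linear_combination (-1) * hW2
      rw [a3, hN', ← a4]
      ring
    calc N * (N - D) * (N - C l * D) * D = (N * (N - C l * D)) * (N - D) * D := by ring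
      _ = f * g ^ 2 := by
        rw [a2, a1, hf, hg, hD', ← hW]
        ring
  have e3 : (N * (N - D) * (N - C l * D)) ^ h * D ^ h * (derivative N * D - N * derivative D)
      = C θ * (f ^ h * g ^ p) := by
    have h2 : g ^ p = (g ^ 2) ^ h * g := by
      rw [← pow_mul, ← pow_succ, hh]
    rw [← mul_pow, e2, mul_pow, e1, h2]
    ring
  have t1 := T_sum gN gD h hh l
  rw [e3, T_C_mul, T_mul_pow, hf, T_legendre h hh, e1, Polynomial.map_mul] at t1
  have hgm : g.map (frobenius R p) = C (θ ^ p) * (X ^ 2 - C (l ^ p)) := by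
    rw [hg]
    simp [frobenius_def]
  have hCm : (C θ).map (frobenius R p) = C (θ ^ p) := by
    simp [frobenius_def]
  rw [hgm, hCm] at t1
  have t2 := congrArg (fun q : R[X] => q.coeff 3) t1
  have t3 : C θ * (C ((-1) ^ h * H h l) * X * (C (θ ^ p) * (X ^ 2 - C (l ^ p))))
      = C (θ * ((-1) ^ h * H h l) * θ ^ p) * X ^ 3
        - C (θ * ((-1) ^ h * H h l) * θ ^ p * l ^ p) * X ^ 1 := by
    simp only [map_mul]
    ring
  have t4 : C ((-1) ^ h * H h l) * (X * (C (θ ^ p) * (C (θ ^ p) * (X ^ 2 - C (l ^ p)))))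
      = C (((-1) ^ h * H h l) * θ ^ p * θ ^ p) * X ^ 3
        - C (((-1) ^ h * H h l) * θ ^ p * θ ^ p * l ^ p) * X ^ 1 := by
    simp only [map_mul]
    ring
  rw [t3, t4] at t2
  simp only [coeff_sub, coeff_C_mul, coeff_X_pow] at t2
  norm_num at t2
  have t5 : ((-1) ^ h * θ ^ p * (θ ^ p - θ)) * H h l = 0 := by
    linear_combination (-1) * t2
  have u3 : IsUnit ((-1) ^ h * θ ^ p * (θ ^ p - θ)) :=
    ((isUnit_one.neg.pow h).mul (u1.pow p)).mul u2
  rw [← hl]
  exact u3.mul_right_eq_zero.mp t5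

lemma frob_theta (h : ℕ) (hh : 2 * h + 1 = p) (θ : R) (hθ : θ ^ 2 + θ + 2 = 0)
    (h7 : (-7 : R) ^ h = -1) (h2 : IsUnit (2 : R)) : θ ^ p = -1 - θ := by
  have e1 : (2 * θ + 1) ^ 2 = -7 := by linear_combination 4 * hθ
  have e2 : (2 * θ + 1) ^ p = -(2 * θ + 1) := by
    rw [← hh, pow_succ, pow_mul, e1, h7]
    ring
  have e3 : (2 * θ + 1) ^ p = 2 * θ ^ p + 1 := by
    rw [add_pow_char, mul_pow, one_pow]
    have : (2 : R) ^ p = 2 := by
      have h3 := congrArg (ZMod.castHom (dvd_refl p) R) (ZMod.pow_card (2 : ZMod p))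
      rw [map_pow, map_ofNat] at h3
      exact h3
    rw [this]
  apply h2.mul_left_cancel
  linear_combination e2 - e3

end supersingular

section clausen

open Pool.Agent.X314.Clausen

lemma dvd_cb {p : ℕ} (hp : p.Prime) {k : ℕ} (hk : k < p) (h2 : p ≤ 2 * k) :
    p ∣ (2 * k).choose k := by
  have h := hp.dvd_choose_add hk hk (by omega)
  rwa [← two_mul] at h

lemma clausen_mod {A : Type*} [CommRing A] {p : ℕ} (hp : p.Prime) (h0 : ((p ^ 2 : ℕ) : A) = 0)
    (x : A) (hx : x * (1 - 16 * x) = 1) :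
    (∑ k ∈ range p, ((t k : ℕ) : A) * x ^ k) ^ 2 = ∑ k ∈ range p, ((T k : ℕ) : A) := by
  have hz : ∀ n : ℕ, p ^ 2 ∣ n → ((n : ℕ) : A) = 0 := by
    rintro n ⟨c, rfl⟩
    rw [Nat.cast_mul, h0, zero_mul]
  have l1 : (∑ k ∈ range p, ((t k : ℕ) : A) * x ^ k) ^ 2
      = ∑ k ∈ range p, ∑ l ∈ range (p - k), ((t k : ℕ) : A) * ((t l : ℕ) : A) * x ^ (k + l) := by
    rw [pow_two, Finset.sum_mul_sum]
    refine Finset.sum_congr rfl fun k hk => ?_
    have hk' := Finset.mem_range.mp hk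
    symm
    have e : ∀ l ∈ range p, ((t k : ℕ) : A) * x ^ k * (((t l : ℕ) : A) * x ^ l)
        = ((t k : ℕ) : A) * ((t l : ℕ) : A) * x ^ (k + l) := by
      intro l _
      rw [pow_add]
      ring
    rw [Finset.sum_congr rfl e]
    apply Finset.sum_subset
    · intro l hl
      rw [Finset.mem_range] at hl ⊢
      omega
    · intro l hl hl2
      rw [Finset.mem_range] at hl hl2
      have : p ^ 2 ∣ t k * t l := by
        by_cases hk2 : p ≤ 2 * k
        · exact Dvd.dvd.mul_right (pow_dvd_pow_of_dvd (dvd_cb hp hk' hk2) 2) _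
        · exact Dvd.dvd.mul_left (pow_dvd_pow_of_dvd (dvd_cb hp hl (by omega)) 2) _
      rw [← Nat.cast_mul, hz _ this, zero_mul]
  have l2 : ∑ k ∈ range p, ((T k : ℕ) : A)
      = ∑ k ∈ range p, ∑ l ∈ range (p - k),
        ((T k : ℕ) : A) * (((k.choose l : ℕ) : A) * (-16) ^ l) * x ^ (k + l) := by
    refine Finset.sum_congr rfl fun k hk => ?_
    have hk' := Finset.mem_range.mp hk
    have e1 : ((T k : ℕ) : A) = ∑ l ∈ range (k + 1),
        ((T k : ℕ) : A) * (((k.choose l : ℕ) : A) * (-16) ^ l) * x ^ (k + l) := by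
      have e2 : (x * (1 - 16 * x)) ^ k = 1 := by rw [hx, one_pow]
      have e3 : (1 - 16 * x) ^ k = ∑ l ∈ range (k + 1), (-16 * x) ^ l * ((k.choose l : ℕ) : A) := by
        rw [show (1 - 16 * x) = (-16 * x) + 1 by ring, add_pow]
        simp
      calc ((T k : ℕ) : A) = ((T k : ℕ) : A) * (x ^ k * (1 - 16 * x) ^ k) := by
            rw [← mul_pow, e2, mul_one]
        _ = _ := by
            rw [e3, Finset.mul_sum, Finset.mul_sum]
            refine Finset.sum_congr rfl fun l _ => ?_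
            rw [mul_pow, pow_add]
            ring
    rcases le_total (k + 1) (p - k) with hc | hc
    · refine e1.trans ?_
      apply Finset.sum_subset
      · intro l hl
        rw [Finset.mem_range] at hl ⊢
        omega
      · intro l hl hl2
        rw [Finset.mem_range] at hl hl2
        rw [Nat.choose_eq_zero_of_lt (by omega)]
        simp
    · by_cases hc2 : k + 1 = p - k
      · rw [← hc2]
        exact e1
      have hT : ((T k : ℕ) : A) = 0 := by
        apply hz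
        have : p ∣ (2 * k).choose k := dvd_cb hp hk' (by omega)
        exact (pow_dvd_pow p (by norm_num)).trans (pow_dvd_pow_of_dvd this 3)
      rw [hT]
      simp
  rw [l1, l2, ← Finset.sum_range_diag_flip p (fun k l => ((t k : ℕ) : A) * ((t l : ℕ) : A) * x ^ (k + l)),
    ← Finset.sum_range_diag_flip p (fun k l => ((T k : ℕ) : A) * (((k.choose l : ℕ) : A) * (-16) ^ l)
      * x ^ (k + l))]
  refine Finset.sum_congr rfl fun n hn => ?_
  have hc := congrArg (Int.cast : ℤ → A) (clausen n)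
  push_cast at hc
  have a1 : ∀ k ∈ range (n + 1), ((t k : ℕ) : A) * ((t (n - k) : ℕ) : A) * x ^ (k + (n - k))
      = (((t k : ℕ) : A) * ((t (n - k) : ℕ) : A)) * x ^ n := by
    intro k hk
    rw [Finset.mem_range] at hk
    rw [show k + (n - k) = n by omega]
  have a2 : ∀ k ∈ range (n + 1),
      ((T k : ℕ) : A) * (((k.choose (n - k) : ℕ) : A) * (-16) ^ (n - k)) * x ^ (k + (n - k))
      = (((T k : ℕ) : A) * (((k.choose (n - k) : ℕ) : A) * (-16) ^ (n - k))) * x ^ n := by
    intro k hk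
    rw [Finset.mem_range] at hk
    rw [show k + (n - k) = n by omega]
  rw [Finset.sum_congr rfl a1, Finset.sum_congr rfl a2, ← Finset.sum_mul, ← Finset.sum_mul]
  congr 1

end clausen

section main

open Pool.Agent.X314.Clausen Pool.Agent.X314.Cartier QuadraticAlgebra

variable {p : ℕ} [hp : Fact p.Prime]

/-- `ℤ/p[θ]`, `θ² = -2-θ` -/
abbrev F (p : ℕ) : Type := QuadraticAlgebra (ZMod p) (-2) (-1)

/-- `ℤ/p²[θ]`, `θ² = -2-θ` -/
abbrev R2 (p : ℕ) : Type := QuadraticAlgebra (ZMod (p ^ 2)) (-2) (-1)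

instance : CharP (F p) p := by
  refine charP_of_injective_algebraMap (R := ZMod p) ?_ p
  intro a b hab
  have := congrArg QuadraticAlgebra.re hab
  simpa using this

/-- reduction of `ℤ/p²` modulo `p` -/
def f0 (p : ℕ) : ZMod (p ^ 2) →+* ZMod p :=
  ZMod.castHom (Dvd.intro_left (p ^ 1) rfl : p ∣ p ^ 2) (ZMod p)

/-- reduction modulo `p` -/
def red (p : ℕ) : R2 p →+* F p where
  toFun z := ⟨f0 p z.re, f0 p z.im⟩
  map_one' := by ext <;> simp
  map_mul' a b := by
    ext
    · simp only [re_mul, map_add, map_mul, map_neg, map_ofNat]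
    · simp only [im_mul, map_add, map_mul, map_neg, map_one]
  map_zero' := by ext <;> simp
  map_add' a b := by ext <;> simp

lemma f0_ker (a : ZMod (p ^ 2)) (ha : f0 p a = 0) : ∃ b, a = (p : ZMod (p ^ 2)) * b := by
  have : NeZero (p ^ 2) := ⟨pow_ne_zero 2 hp.out.ne_zero⟩
  obtain ⟨n, rfl⟩ : ∃ n : ℕ, (n : ZMod (p ^ 2)) = a := ⟨a.val, ZMod.natCast_zmod_val a⟩
  rw [map_natCast, ZMod.natCast_eq_zero_iff] at ha
  obtain ⟨m, rfl⟩ := ha
  exact ⟨m, by push_cast; ring⟩

lemma red_ker (z : R2 p) (hz : red p z = 0) : z ^ 2 = 0 := by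
  have h1 : f0 p z.re = 0 := congrArg QuadraticAlgebra.re hz
  have h2 : f0 p z.im = 0 := congrArg QuadraticAlgebra.im hz
  obtain ⟨a, ha⟩ := f0_ker _ h1
  obtain ⟨b, hb⟩ := f0_ker _ h2
  have hpp : (p : ZMod (p ^ 2)) * p = 0 := by
    rw [← Nat.cast_mul, ← pow_two, ZMod.natCast_self]
  rw [pow_two]
  ext
  · rw [re_mul, ha, hb, re_zero]
    linear_combination (a * a + (-2) * b * b) * hpp
  · rw [im_mul, ha, hb, im_zero]
    linear_combination (2 * a * b + (-1) * b * b) * hpp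

lemma sum_T (h : ℕ) (hh : 2 * h + 1 = p) (h7 : (-7 : ZMod p) ^ h = -1) :
    p ^ 2 ∣ ∑ k ∈ range p, T k := by
  have hodd : p % 2 = 1 := by omega
  -- the inverse of 16
  have hcop : Nat.Coprime 16 (p ^ 2) := by
    apply Nat.Coprime.pow_right
    have : Nat.Coprime 2 p := (Nat.coprime_primes Nat.prime_two hp.out).mpr (by omega)
    exact Nat.Coprime.pow_left 4 this
  obtain ⟨c, hc⟩ : ∃ c : ZMod (p ^ 2), 16 * c = 1 := by
    refine ⟨((16 : ℕ) : ZMod (p ^ 2))⁻¹, ?_⟩
    have := ZMod.coe_mul_inv_eq_one 16 hcop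
    exact_mod_cast this
  obtain ⟨x, hxd⟩ : ∃ x : R2 p, x = ⟨-c, -3 * c⟩ := ⟨_, rfl⟩
  have h16 : (1 - 16 * x : R2 p) = ⟨1 + 16 * c, 48 * c⟩ := by
    rw [hxd]
    have : (16 : R2 p) = ⟨16, 0⟩ := rfl
    rw [this]
    ext
    · simp
    · simp
      ring
  have hx : x * (1 - 16 * x) = 1 := by
    rw [h16, hxd]
    ext
    · rw [re_mul, re_one]
      linear_combination (17 * c + 1) * hc
    · rw [im_mul, im_one]
      linear_combination (3 * c) * hc
  have key := clausen_mod (A := R2 p) hp.out (by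
    have : ((p ^ 2 : ℕ) : R2 p) = ⟨((p ^ 2 : ℕ) : ZMod (p ^ 2)), 0⟩ := rfl
    rw [this, ZMod.natCast_self]
    rfl) x hx
  -- reduction modulo p
  obtain ⟨θ, hθd⟩ : ∃ θ : F p, θ = ⟨0, 1⟩ := ⟨_, rfl⟩
  have hθ : θ ^ 2 + θ + 2 = 0 := by
    rw [hθd, pow_two]
    ext
    · simp
    · simp
  have h2u : IsUnit (2 : F p) := by
    have := (CharP.isUnit_natCast_iff (R := F p) (n := 2) hp.out).mpr (by
      intro h2
      have := (Nat.prime_dvd_prime_iff_eq hp.out Nat.prime_two).mp h2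
      omega)
    exact_mod_cast this
  have h7F : (-7 : F p) ^ h = -1 := by
    have h8 := congrArg (algebraMap (ZMod p) (F p)) h7
    rw [map_pow, map_neg, map_neg, map_ofNat, map_one] at h8
    exact h8
  have h7u : IsUnit (-7 : F p) := by
    have h1 : h ≠ 0 := by
      have := hp.out.two_le
      omega
    apply (isUnit_pow_iff h1).mp
    rw [h7F]
    exact isUnit_one.neg
  have hfr := frob_theta h hh θ hθ h7F h2u
  have u1 : IsUnit θ := by
    apply isUnit_of_mul_isUnit_left (y := θ + 1)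
    have : θ * (θ + 1) = -2 := by linear_combination hθ
    rw [this]
    exact h2u.neg
  have u2 : IsUnit (θ ^ p - θ) := by
    rw [hfr]
    apply isUnit_of_mul_isUnit_left (y := -1 - θ - θ)
    have : (-1 - θ - θ) * (-1 - θ - θ) = -7 := by linear_combination 4 * hθ
    rw [this]
    exact h7u
  have hss := ss h hh θ hθ u1 u2
  have hred : red p (∑ k ∈ range p, ((t k : ℕ) : R2 p) * x ^ k) = 0 := by
    rw [map_sum]
    have e16 : 16 * red p x = -1 - 3 * θ := by
      have hc' : 16 * f0 p c = 1 := by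
        have := congrArg (f0 p) hc
        rw [map_mul, map_ofNat, map_one] at this
        exact this
      have e1 : red p x = ⟨-(f0 p c), -3 * f0 p c⟩ := by
        rw [hxd]
        show (⟨f0 p (-c), f0 p (-3 * c)⟩ : F p) = _
        rw [map_neg, map_mul, map_neg, map_ofNat]
      rw [e1, hθd]
      have e2 : (16 : F p) = ⟨16, 0⟩ := rfl
      have e3 : (3 : F p) = ⟨3, 0⟩ := rfl
      rw [e2, e3]
      ext
      · simp
        linear_combination hc'
      · simp
        linear_combination 3 * hc'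
    have e4 : ∀ k ∈ range p, red p (((t k : ℕ) : R2 p) * x ^ k)
        = if k < h + 1 then ((h.choose k : ℕ) : F p) ^ 2 * (-1 - 3 * θ) ^ k else 0 := by
      intro k hk
      rw [Finset.mem_range] at hk
      rw [map_mul, map_natCast, map_pow]
      split_ifs with hkh
      · have := central_eq (R := F p) h hh k (by omega)
        rw [t, Nat.cast_pow, this, ← e16, mul_pow, mul_pow, ← pow_mul, mul_comm k 2, pow_mul]
        norm_num
        ring
      · have hd : p ∣ (2 * k).choose k := dvd_cb hp.out hk (by omega)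
        have : (((2 * k).choose k : ℕ) : F p) = 0 := by
          rw [CharP.cast_eq_zero_iff (F p) p]
          exact hd
        rw [t, Nat.cast_pow, this]
        ring
    rw [Finset.sum_congr rfl e4, ← Finset.sum_filter]
    have e5 : (range p).filter (fun k => k < h + 1) = range (h + 1) := by
      ext k
      simp only [Finset.mem_filter, Finset.mem_range]
      omega
    rw [e5]
    exact hss
  have hz := red_ker _ hred
  rw [key] at hz
  have hz2 : ((∑ k ∈ range p, T k : ℕ) : R2 p) = 0 := by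
    push_cast
    exact hz
  have hz3 : ((∑ k ∈ range p, T k : ℕ) : ZMod (p ^ 2)) = 0 := congrArg QuadraticAlgebra.re hz2
  rwa [ZMod.natCast_eq_zero_iff] at hz3

end main

section reduction

/-- the sequence `a(n)` -/
def a (n : ℕ) : ℤ :=
  ∑ k ∈ range (n + 1), (-16) ^ k * (n.choose k : ℤ) ^ 2 * ((n - k).choose k : ℤ) ^ 2

/-- `W(N,m) = ∑_{n<N} (-1)^n C(n,m)²` -/
def W (N m : ℕ) : ℤ := ∑ n ∈ range N, (-1) ^ n * (n.choose m : ℤ) ^ 2

lemma W_rec (m N : ℕ) : ((m : ℤ) + 2) * ((m + 1) * W N m + 4 * (m + 2) * W N (m + 2))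
    = (-1) ^ N * (N.choose (m + 1) : ℤ) ^ 2
      * (-2 * N ^ 2 + (6 * m + 8) * N - (m + 1) * (5 * m + 8)) := by
  induction N with
  | zero => simp [W]
  | succ n ih =>
    have e1 : W (n + 1) m = W n m + (-1) ^ n * (n.choose m : ℤ) ^ 2 := by
      rw [W, Finset.sum_range_succ]
      rfl
    have e2 : W (n + 1) (m + 2) = W n (m + 2) + (-1) ^ n * (n.choose (m + 2) : ℤ) ^ 2 := by
      rw [W, Finset.sum_range_succ]
      rfl
    have r1 : (n.choose (m + 1) : ℤ) * (m + 1) = n.choose m * ((n : ℤ) - m) := by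
      rcases le_or_gt m n with h | h
      · have := Nat.choose_succ_right_eq n m
        have h2 := congrArg (Nat.cast : ℕ → ℤ) this
        rw [Nat.cast_mul, Nat.cast_mul, Nat.cast_sub h] at h2
        push_cast at h2
        exact h2
      · rw [Nat.choose_eq_zero_of_lt h, Nat.choose_eq_zero_of_lt (by omega)]
        simp
    have r2 : (n.choose (m + 2) : ℤ) * (m + 2) = n.choose (m + 1) * ((n : ℤ) - m - 1) := by
      rcases le_or_gt (m + 1) n with h | h
      · have := Nat.choose_succ_right_eq n (m + 1)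
        have h2 := congrArg (Nat.cast : ℕ → ℤ) this
        rw [Nat.cast_mul, Nat.cast_mul, Nat.cast_sub h] at h2
        push_cast at h2
        linear_combination h2
      · rw [Nat.choose_eq_zero_of_lt h, Nat.choose_eq_zero_of_lt (by omega)]
        simp
    have r3 : ((n + 1).choose (m + 1) : ℤ) = n.choose m + n.choose (m + 1) := by
      rw [Nat.choose_succ_succ]
      push_cast
      ring
    rw [e1, e2, r3, pow_succ]
    push_cast
    linear_combination ih + (-1) ^ n * ((2 * ((n : ℤ) - 2 * m - 2) * n.choose m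
      + (4 * n - 6 * m - 6) * n.choose (m + 1)) * r1
      + 4 * ((n.choose (m + 2) : ℤ) * (m + 2) + n.choose (m + 1) * ((n : ℤ) - m - 1)) * r2)

lemma W_zero (h : ℕ) : W (2 * h + 1) 0 = 1 := by
  have : W (2 * h + 1) 0 = ∑ n ∈ range (2 * h + 1), (-1 : ℤ) ^ n := by
    rw [W]
    simp
  rw [this, neg_one_geom_sum, if_neg]
  rw [Nat.not_even_iff_odd]
  exact ⟨h, rfl⟩

lemma W_mod {p : ℕ} (hp : p.Prime) (h : ℕ) (hh : 2 * h + 1 = p) (k : ℕ) (hk : 2 * k < p) :
    ((p : ℤ) ^ 2) ∣ (-16) ^ k * W p (2 * k) - ((2 * k).choose k : ℤ) := by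
  induction k with
  | zero =>
    have : W p (2 * 0) = 1 := by
      rw [← hh]
      exact W_zero h
    rw [this]
    simp
  | succ k ih =>
    have ih' := ih (by omega)
    have hcop : ∀ m : ℕ, 0 < m → m < p → IsCoprime ((p : ℤ) ^ 2) (m : ℤ) := by
      intro m hm hmp
      apply IsCoprime.pow_left
      rw [Nat.isCoprime_iff_coprime, Nat.Prime.coprime_iff_not_dvd hp]
      intro hd
      exact absurd (Nat.le_of_dvd hm hd) (by omega)
    have h1 := W_rec (2 * k) p
    have h2 : ((p : ℤ) ^ 2) ∣ (((2 * k + 2 : ℕ) : ℤ)) *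
        ((2 * k + 1) * W p (2 * k) + 4 * (2 * k + 2) * W p (2 * k + 2)) := by
      have h3 : ((p : ℤ) ^ 2) ∣ (p.choose (2 * k + 1) : ℤ) ^ 2 := by
        apply pow_dvd_pow_of_dvd
        exact_mod_cast hp.dvd_choose_self (by omega) (by omega)
      have h4 : (((2 * k + 2 : ℕ) : ℤ)) *
          ((2 * k + 1) * W p (2 * k) + 4 * (2 * k + 2) * W p (2 * k + 2))
          = (p.choose (2 * k + 1) : ℤ) ^ 2 * ((-1) ^ p
            * (-2 * p ^ 2 + (6 * (2 * k) + 8) * p - (2 * k + 1) * (5 * (2 * k) + 8))) := by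
        push_cast at h1 ⊢
        linear_combination h1
      rw [h4]
      exact Dvd.dvd.mul_right h3 _
    have h5 := (hcop (2 * k + 2) (by omega) (by omega)).dvd_of_dvd_mul_left h2
    have h6 : ((k : ℤ) + 1) * ((2 * (k + 1)).choose (k + 1) : ℤ)
        = 2 * (2 * k + 1) * ((2 * k).choose k : ℤ) := by
      have := congrArg (Nat.cast : ℕ → ℤ) (Pool.Agent.X314.Clausen.cb_rec k)
      push_cast at this
      exact this
    have h7 : ((p : ℤ) ^ 2) ∣ ((k + 1 : ℕ) : ℤ) * ((-16) ^ (k + 1) * W p (2 * (k + 1))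
        - ((2 * (k + 1)).choose (k + 1) : ℤ)) := by
      have h8 : ((k + 1 : ℕ) : ℤ) * ((-16) ^ (k + 1) * W p (2 * (k + 1))
        - ((2 * (k + 1)).choose (k + 1) : ℤ))
        = ((2 * k + 1) * W p (2 * k) + 4 * (2 * k + 2) * W p (2 * k + 2)) * ((-2) * (-16) ^ k)
          + ((-16) ^ k * W p (2 * k) - ((2 * k).choose k : ℤ)) * (2 * (2 * k + 1)) := by
        rw [show 2 * (k + 1) = 2 * k + 2 by ring] at h6 ⊢
        push_cast
        rw [pow_succ]
        linear_combination (-1) * h6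
      rw [h8]
      exact dvd_add (Dvd.dvd.mul_right h5 _) (Dvd.dvd.mul_right ih' _)
    exact (hcop (k + 1) (by omega) (by omega)).dvd_of_dvd_mul_left h7

lemma S_eq (p : ℕ) : ∑ n ∈ range p, (-1) ^ n * a n
    = ∑ k ∈ range p, (-16) ^ k * ((2 * k).choose k : ℤ) ^ 2 * W p (2 * k) := by
  have e1 : ∀ n ∈ range p, (-1) ^ n * a n
      = ∑ k ∈ range p, (-16) ^ k * ((2 * k).choose k : ℤ) ^ 2
        * ((-1) ^ n * (n.choose (2 * k) : ℤ) ^ 2) := by
    intro n hn
    rw [Finset.mem_range] at hn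
    rw [a, Finset.mul_sum]
    have e2 : ∀ k ∈ range (n + 1),
        (-1 : ℤ) ^ n * ((-16) ^ k * (n.choose k : ℤ) ^ 2 * ((n - k).choose k : ℤ) ^ 2)
        = (-16) ^ k * ((2 * k).choose k : ℤ) ^ 2 * ((-1) ^ n * (n.choose (2 * k) : ℤ) ^ 2) := by
      intro k hk
      rw [Finset.mem_range] at hk
      have e3 : n.choose k * (n - k).choose k = n.choose (2 * k) * (2 * k).choose k := by
        rcases le_or_gt (2 * k) n with h | h
        · rw [Nat.choose_mul (by omega), show 2 * k - k = k by omega]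
        · rw [Nat.choose_eq_zero_of_lt h, Nat.choose_eq_zero_of_lt (show n - k < k by omega)]
          simp
      have e4 := congrArg (Nat.cast : ℕ → ℤ) e3
      push_cast at e4
      linear_combination ((-1) ^ n * (-16) ^ k * ((n.choose k : ℤ) * ((n - k).choose k : ℤ)
        + (n.choose (2 * k) : ℤ) * ((2 * k).choose k : ℤ))) * e4
    rw [Finset.sum_congr rfl e2]
    apply Finset.sum_subset
    · intro k hk
      rw [Finset.mem_range] at hk ⊢
      omega
    · intro k hk hk2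
      rw [Finset.mem_range] at hk hk2
      rw [Nat.choose_eq_zero_of_lt (show n < 2 * k by omega)]
      simp
  rw [Finset.sum_congr rfl e1, Finset.sum_comm]
  refine Finset.sum_congr rfl fun k _ => ?_
  rw [← Finset.mul_sum, W]

lemma S_mod {p : ℕ} (hp : p.Prime) (h : ℕ) (hh : 2 * h + 1 = p) :
    ((p : ℤ) ^ 2) ∣ ∑ n ∈ range p, (-1) ^ n * a n
      - ((∑ k ∈ range p, Pool.Agent.X314.Clausen.T k : ℕ) : ℤ) := by
  rw [S_eq]
  push_cast
  rw [← Finset.sum_sub_distrib]
  apply Finset.dvd_sum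
  intro k hk
  rw [Finset.mem_range] at hk
  by_cases h2 : 2 * k < p
  · have h3 := W_mod hp h hh k h2
    have h4 : (-16) ^ k * ((2 * k).choose k : ℤ) ^ 2 * W p (2 * k)
        - (Pool.Agent.X314.Clausen.T k : ℤ)
        = ((-16) ^ k * W p (2 * k) - ((2 * k).choose k : ℤ)) * ((2 * k).choose k : ℤ) ^ 2 := by
      rw [Pool.Agent.X314.Clausen.T]
      push_cast
      ring
    rw [h4]
    exact Dvd.dvd.mul_right h3 _
  · have h3 : ((p : ℤ) ^ 2) ∣ ((2 * k).choose k : ℤ) ^ 2 := by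
      apply pow_dvd_pow_of_dvd
      exact_mod_cast dvd_cb hp hk (by omega)
    have h4 : (-16) ^ k * ((2 * k).choose k : ℤ) ^ 2 * W p (2 * k)
        - (Pool.Agent.X314.Clausen.T k : ℤ)
        = ((2 * k).choose k : ℤ) ^ 2 * ((-16) ^ k * W p (2 * k) - ((2 * k).choose k : ℤ)) := by
      rw [Pool.Agent.X314.Clausen.T]
      push_cast
      ring
    rw [h4]
    exact Dvd.dvd.mul_right h3 _

end reduction

lemma leg {p : ℕ} [hp : Fact p.Prime] (h : ℕ) (hh : 2 * h + 1 = p)
    (h7 : p % 7 = 3 ∨ p % 7 = 5 ∨ p % 7 = 6) : (-7 : ZMod p) ^ h = -1 := by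
  have : Fact (Nat.Prime 7) := ⟨by norm_num⟩
  have hp2 : p ≠ 2 := by omega
  have e1 : legendreSym 7 p = -1 := by
    rw [legendreSym.mod]
    rcases h7 with h7 | h7 | h7
    · have : ((p : ℤ) % ((7 : ℕ) : ℤ)) = 3 := by omega
      rw [this]
      norm_num
    · have : ((p : ℤ) % ((7 : ℕ) : ℤ)) = 5 := by omega
      rw [this]
      norm_num
    · have : ((p : ℤ) % ((7 : ℕ) : ℤ)) = 6 := by omega
      rw [this]
      norm_num
  have e2 := legendreSym.quadratic_reciprocity' (p := p) (q := 7) hp2 (by norm_num)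
  have e3 : legendreSym p (-7) = -1 := by
    have e4 : legendreSym p (-7) = legendreSym p (-1) * legendreSym p 7 := by
      rw [← legendreSym.mul]
      norm_num
    rw [e4, legendreSym.at_neg_one hp2, ZMod.χ₄_eq_neg_one_pow (by omega)]
    rw [e1, show 7 / 2 = 3 by norm_num, pow_mul] at e2
    have hs : (((-1 : ℤ)) ^ (p / 2)) ^ 2 = 1 := by
      rw [← pow_mul, mul_comm, pow_mul]
      norm_num
    have e5 : (((7 : ℕ) : ℤ)) = 7 := by norm_num
    rw [e5] at e2
    linear_combination (-1) * e2 + (-((-1) ^ (p / 2) * legendreSym p 7)) * hs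
  have e5 := legendreSym.eq_pow p (-7)
  rw [e3] at e5
  have e6 : p / 2 = h := by omega
  rw [e6] at e5
  push_cast at e5
  exact e5.symm

/-- For every prime `p ≡ 3, 5, 6 (mod 7)`, `p²` divides `∑_{k<p} (-1)^k a(k)`. -/
theorem result (p : ℕ) (hp : p.Prime) (h7 : p % 7 = 3 ∨ p % 7 = 5 ∨ p % 7 = 6) :
    ((p : ℤ) ^ 2) ∣ ∑ k ∈ range p, (-1) ^ k * a k := by
  have : Fact p.Prime := ⟨hp⟩
  obtain ⟨h, hh⟩ : ∃ h, 2 * h + 1 = p := by
    rcases hp.eq_two_or_odd with h | h
    · omega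
    · exact ⟨p / 2, by omega⟩
  have h1 := sum_T h hh (leg h hh h7)
  have h2 := S_mod hp h hh
  have h3 : ((p : ℤ) ^ 2) ∣ ((∑ k ∈ range p, Pool.Agent.X314.Clausen.T k : ℕ) : ℤ) := by
    exact_mod_cast h1
  have h4 := dvd_add h2 h3
  rwa [sub_add_cancel] at h4

end Pool.Agent.Results.MP_552068_nt.Vanishing
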